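import Pool.Agent.Q120.TL.Stm
import Pool.Agent.Q151.SI.Mixb
import Pool.Agent.Q222.GE.CHAIN

/-!
# Project TL (helper120), job MIXC: the general construction with independent blocks, cumulative relative entropies
-/

set_option autoImplicit false

namespace Pool.Agent.Q47.TL

open Finset MeasureTheory Filter Pool.Agent.Q120.ET Pool.Agent.Q120.GM Pool.Agent.Q120.GE
open Pool.Agent.Q120.RZ Pool.Agent.Q120.TL ProbabilityTheory Pool.Agent.Q151.SI Pool.Agent.Q222.GE.CHAIN
open scoped Topology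

theorem lawOn_congr {Ω : Type*} [MeasurableSpace Ω] {μ : Measure Ω} {A : Ω → Set ℕ} {B T T' : Finset ℕ}
    (h : ∀ n ∈ B, (n ∈ T ↔ n ∈ T')) : lawOn μ A B T = lawOn μ A B T' := by
  unfold lawOn
  congr 1
  ext ω
  constructor
  · intro h1 n hn
    rw [← h n hn]
    exact h1 n hn
  · intro h1 n hn
    rw [h n hn]
    exact h1 n hn

/-- the entropies of independent parts add -/
theorem relEntropy_union {Ω : Type*} [MeasurableSpace Ω] {μ : Measure Ω} [IsProbabilityMeasure μ]
    {A : Ω → Set ℕ} (hA : IsRandomSet A) {B C : Finset ℕ} (hB : ∀ n ∈ B, 3 ≤ n) (hC : ∀ n ∈ C, 3 ≤ n)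
    (hd : Disjoint B C) (h : ∀ T, T ⊆ B ∪ C → lawOn μ A (B ∪ C) T = lawOn μ A B T * lawOn μ A C T) :
    relEntropy μ A (B ∪ C) = relEntropy μ A B + relEntropy μ A C := by
  have e1 : relEntropy μ A (B ∪ C) = ∑ T₁ ∈ B.powerset, ∑ T₂ ∈ C.powerset,
      (lawOn μ A (B ∪ C) (T₁ ∪ T₂) *
        Real.log (lawOn μ A (B ∪ C) (T₁ ∪ T₂) / cramerOn (B ∪ C) (T₁ ∪ T₂))) := by
    unfold relEntropy
    exact sum_powerset_union hd _
  have hterm : ∀ T₁ ∈ B.powerset, ∀ T₂ ∈ C.powerset,
      (lawOn μ A (B ∪ C) (T₁ ∪ T₂) *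
        Real.log (lawOn μ A (B ∪ C) (T₁ ∪ T₂) / cramerOn (B ∪ C) (T₁ ∪ T₂))) =
      lawOn μ A B T₁ * Real.log (lawOn μ A B T₁ / cramerOn B T₁) * lawOn μ A C T₂ +
        lawOn μ A B T₁ * (lawOn μ A C T₂ * Real.log (lawOn μ A C T₂ / cramerOn C T₂)) := by
    intro T₁ h2 T₂ h3
    rw [mem_powerset] at h2 h3
    rw [h _ (union_subset_union h2 h3), cramer_union hd h2 h3]
    have g1 : lawOn μ A B (T₁ ∪ T₂) = lawOn μ A B T₁ := by
      apply lawOn_congr
      intro n hn
      rw [mem_union]
      constructor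
      · rintro (h4 | h4)
        · exact h4
        · exact absurd (h3 h4) (Finset.disjoint_left.1 hd hn)
      · exact fun h4 => Or.inl h4
    have g2 : lawOn μ A C (T₁ ∪ T₂) = lawOn μ A C T₂ := by
      apply lawOn_congr
      intro n hn
      rw [mem_union]
      constructor
      · rintro (h4 | h4)
        · exact absurd hn (Finset.disjoint_left.1 hd (h2 h4))
        · exact h4
      · exact fun h4 => Or.inr h4
    rw [g1, g2]
    exact split_log (cramerOn_pos hB h2) (cramerOn_pos hC h3)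
  rw [e1]
  have e2 : ∑ T₁ ∈ B.powerset, ∑ T₂ ∈ C.powerset,
      (lawOn μ A (B ∪ C) (T₁ ∪ T₂) *
        Real.log (lawOn μ A (B ∪ C) (T₁ ∪ T₂) / cramerOn (B ∪ C) (T₁ ∪ T₂))) =
      ∑ T₁ ∈ B.powerset, (lawOn μ A B T₁ * Real.log (lawOn μ A B T₁ / cramerOn B T₁) * 1 +
        lawOn μ A B T₁ * relEntropy μ A C) := by
    refine sum_congr rfl (fun T₁ h2 => ?_)
    rw [sum_congr rfl (hterm T₁ h2), sum_add_distrib, ← mul_sum, ← mul_sum, sum_law hA C]
    rfl
  rw [e2, sum_add_distrib, ← sum_mul, ← sum_mul, sum_law hA B]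
  unfold relEntropy
  ring

section

variable {p : ℕ → Finset ℕ → ℝ} (hp : ∀ k, ∀ T ∈ (block k).powerset, 0 ≤ p k T)
  (hp1 : ∀ k, ∑ T ∈ (block k).powerset, p k T = 1)

include hp hp1

/-- the events of the blocks -/
theorem law_low (T : Finset ℕ) (k : ℕ) :
    lawOn (blockLaw p) (fun ω => blockSet ω) (low k) T =
      ∏ i ∈ range k, (blockLaw p).real ((fun ω : ℕ → Finset ℕ => ω i) ⁻¹'
        {S | ∀ n ∈ block i, 3 ≤ n → (n ∈ S ↔ n ∈ T)}) := by
  have h1 : {ω : ℕ → Finset ℕ | ∀ n ∈ low k, (n ∈ blockSet ω ↔ n ∈ T)} =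
      ⋂ i ∈ range k, (fun ω : ℕ → Finset ℕ => ω i) ⁻¹'
        {S | ∀ n ∈ block i, 3 ≤ n → (n ∈ S ↔ n ∈ T)} := by
    ext ω
    simp only [Set.mem_iInter, Set.mem_preimage, Set.mem_ofPred_eq, mem_range]
    constructor
    · intro h i hi n hn h3
      rw [← mem_blockSet hn]
      refine h n ?_
      rw [block, mem_Ico] at hn
      rw [low, mem_Ico]
      have : 2 ^ (i + 1) ≤ 2 ^ k := Nat.pow_le_pow_right (by norm_num) hi
      omega
    · intro h n hn
      rw [low, mem_Ico] at hn
      have h3 : n ∈ block (Nat.log 2 n) := by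
        rw [block, mem_Ico]
        exact ⟨Nat.pow_log_le_self 2 (by omega), Nat.lt_pow_succ_log_self (by norm_num) n⟩
      have h4 : Nat.log 2 n < k := Nat.log_lt_of_lt_pow (by omega) hn.2
      rw [mem_blockSet h3]
      exact h _ h4 n h3 hn.1
  rw [lawOn, h1]
  have h2 := (indep_blockLaw hp hp1 (fun i => {S | ∀ n ∈ block i, 3 ≤ n → (n ∈ S ↔ n ∈ T)})).meas_biInter
    (range k)
  unfold Measure.real
  rw [h2, ENNReal.toReal_prod]

theorem law_low_succ {k : ℕ} (hk : 2 ≤ k) (T : Finset ℕ) :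
    lawOn (blockLaw p) (fun ω => blockSet ω) (low (k + 1)) T =
      lawOn (blockLaw p) (fun ω => blockSet ω) (low k) T *
        lawOn (blockLaw p) (fun ω => blockSet ω) (block k) T := by
  rw [law_low hp hp1, law_low hp hp1, prod_range_succ]
  congr 1
  rw [lawOn]
  congr 1
  ext ω
  simp only [Set.mem_preimage, Set.mem_ofPred_eq]
  constructor
  · intro h n hn
    rw [mem_blockSet hn]
    exact h n hn (three_le_of_mem_block hk hn)
  · intro h n hn _
    rw [← mem_blockSet hn]
    exact h n hn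

omit hp hp1 in
theorem low_succ_eq {k : ℕ} (hk : 2 ≤ k) : low (k + 1) = low k ∪ block k ∧ Disjoint (low k) (block k) := by
  have h4 : 2 ^ 2 ≤ 2 ^ k := Nat.pow_le_pow_right (by norm_num) hk
  have h5 : 2 ^ (k + 1) = 2 * 2 ^ k := by ring
  constructor
  · ext n
    rw [mem_union, low, low, block, mem_Ico, mem_Ico, mem_Ico]
    omega
  · rw [Finset.disjoint_left]
    intro n hn hn2
    rw [low, mem_Ico] at hn
    rw [block, mem_Ico] at hn2
    omega

theorem relEntropy_low_succ {k : ℕ} (hk : 2 ≤ k) :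
    relEntropy (blockLaw p) (fun ω => blockSet ω) (low (k + 1)) =
      relEntropy (blockLaw p) (fun ω => blockSet ω) (low k) +
        relEntropy (blockLaw p) (fun ω => blockSet ω) (block k) := by
  have hprob : IsProbabilityMeasure (blockLaw p) := isProb_blockLaw hp hp1
  obtain ⟨h1, h2⟩ := low_succ_eq hk
  have h3 := relEntropy_union (μ := blockLaw p) (A := fun ω => blockSet ω) isRandomSet_blockSet
    (B := low k) (C := block k) (fun n hn => by rw [low, mem_Ico] at hn; exact hn.1)
    (fun n hn => three_le_of_mem_block hk hn) h2 (fun T _ => by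
      rw [← h1]
      exact law_low_succ hp hp1 hk T)
  rw [← h1] at h3
  exact h3

end

theorem log_three_ge : 1.08 ≤ Real.log 3 := by
  rw [Real.le_log_iff_exp_le (by norm_num)]
  have h1 : Real.exp 1.08 = Real.exp 1 * Real.exp 0.08 := by rw [← Real.exp_add]; norm_num
  have h2 := Real.exp_one_lt_d9
  have h3 : Real.exp 0.08 ≤ 1.087 := by
    have h4 := Real.one_sub_le_exp_neg 0.08
    rw [Real.exp_neg] at h4
    have h5 := Real.exp_pos 0.08
    have h6 : (1 - 0.08) * Real.exp 0.08 ≤ 1 := by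
      calc (1 - 0.08) * Real.exp 0.08 ≤ (Real.exp 0.08)⁻¹ * Real.exp 0.08 :=
            mul_le_mul_of_nonneg_right h4 h5.le
        _ = 1 := inv_mul_cancel₀ h5.ne'
    norm_num at h6 ⊢
    nlinarith
  rw [h1]
  have h4 := Real.exp_pos 0.08
  have h5 := Real.exp_pos 1
  nlinarith

/-- the first part -/
theorem relEntropy_low_two {p : ℕ → Finset ℕ → ℝ} (hp : ∀ k, ∀ T ∈ (block k).powerset, 0 ≤ p k T)
    (hp1 : ∀ k, ∑ T ∈ (block k).powerset, p k T = 1) (hp2 : p 1 ∅ = 1) (hp3 : ∀ T, T ≠ ∅ → p 1 T = 0) :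
    relEntropy (blockLaw p) (fun ω => blockSet ω) (low 2) ≤ 3 := by
  classical
  have hprob : IsProbabilityMeasure (blockLaw p) := isProb_blockLaw hp hp1
  have hlow : low 2 = {3} := by
    ext n
    rw [low, mem_Ico, mem_singleton]
    omega
  have h3b : 3 ∈ block 1 := by
    rw [block, mem_Ico]
    norm_num
  have hlaw : ∀ T : Finset ℕ, 3 ∈ T → lawOn (blockLaw p) (fun ω => blockSet ω) {3} T = 0 := by
    intro T hT
    have h1 : {ω : ℕ → Finset ℕ | ∀ n ∈ ({3} : Finset ℕ), (n ∈ blockSet ω ↔ n ∈ T)} =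
        (fun ω => ω 1) ⁻¹' {S | 3 ∈ S} := by
      ext ω
      simp only [mem_singleton, forall_eq, Set.mem_ofPred_eq, Set.mem_preimage, hT, iff_true]
      exact mem_blockSet h3b ω
    rw [lawOn, h1, Measure.real, blockLaw_pre hp hp1, blockMeasure_apply (hp 1),
      ENNReal.toReal_ofReal]
    · refine sum_eq_zero (fun S hS => ?_)
      rw [mem_filter, Set.mem_ofPred_eq] at hS
      apply hp3
      rintro rfl
      simp at hS
    · exact sum_nonneg (fun S hS => hp 1 S (mem_filter.1 hS).1)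
  have hsum := sum_law (μ := blockLaw p) isRandomSet_blockSet ({3} : Finset ℕ)
  have hpw : ({3} : Finset ℕ).powerset = {∅, {3}} := by
    ext S
    rw [mem_powerset, subset_singleton_iff, mem_insert, mem_singleton]
  rw [hlow]
  unfold relEntropy
  rw [hpw, sum_pair (by simp)] at hsum ⊢
  rw [hlaw {3} (by simp)] at hsum ⊢
  rw [add_zero] at hsum
  rw [hsum]
  have hc : cramerOn {3} ∅ = 1 - 1 / Real.log 3 := by
    unfold cramerOn
    simp
  rw [hc]
  have h1 := log_three_ge
  have h2 : (0.07 : ℝ) ≤ 1 - 1 / Real.log 3 := by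
    have : 1 / Real.log 3 ≤ 0.93 := by
      rw [div_le_iff₀ (by linarith)]
      nlinarith
    linarith
  have h3 : Real.log (1 / (1 - 1 / Real.log 3)) ≤ 3 := by
    rw [Real.log_le_iff_le_exp (by positivity)]
    have h4 : Real.exp 3 = Real.exp 1 * (Real.exp 1 * Real.exp 1) := by
      rw [← Real.exp_add, ← Real.exp_add]; norm_num
    have h5 := Real.exp_one_gt_d9
    have h6 : 15 ≤ Real.exp 3 := by
      rw [h4]
      have h7 : 7 ≤ Real.exp 1 * Real.exp 1 := by nlinarith
      nlinarith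
    refine le_trans ?_ h6
    rw [div_le_iff₀ (by linarith)]
    linarith
  linarith

theorem t_MIXC : J_MIXC := by
  classical
  intro P q E _ hP hq
  obtain ⟨p, hp⟩ : ∃ p : ℕ → Finset ℕ → ℝ, p = fun k T => if 2 ≤ k then
    (1 - q k) * cramerOn (block k) T + q k * P k T else if T = ∅ then 1 else 0 := ⟨_, rfl⟩
  have hp2 : ∀ k, 2 ≤ k → ∀ T, p k T = (1 - q k) * cramerOn (block k) T + q k * P k T := by
    intro k hk T
    rw [hp]
    simp only [if_pos hk]
  have hc : ∀ k, 2 ≤ k → ∀ T ∈ (block k).powerset, 0 < cramerOn (block k) T := by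
    intro k hk T hT
    exact cramerOn_pos (fun n hn => three_le_of_mem_block hk hn) (mem_powerset.1 hT)
  have hp0 : ∀ k, ∀ T ∈ (block k).powerset, 0 ≤ p k T := by
    intro k T hT
    by_cases hk : 2 ≤ k
    · rw [hp2 k hk]
      have h1 := (hc k hk T hT).le
      have h2 := (hP k hk).1 T hT
      have h3 := hq k
      have h4 : 0 ≤ 1 - q k := by linarith [h3.2]
      have h5 := h3.1
      positivity
    · rw [hp]
      simp only [if_neg hk]
      split_ifs <;> norm_num
  have hp1 : ∀ k, ∑ T ∈ (block k).powerset, p k T = 1 := by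
    intro k
    by_cases hk : 2 ≤ k
    · simp_rw [hp2 k hk]
      rw [sum_add_distrib, ← mul_sum, ← mul_sum, sum_cramerOn, (hP k hk).2]
      ring
    · rw [hp]
      simp only [if_neg hk]
      rw [Finset.sum_ite_eq' (block k).powerset ∅ (fun _ => (1 : ℝ)), if_pos (empty_mem_powerset _)]
  have hprob : IsProbabilityMeasure (blockLaw p) := isProb_blockLaw hp0 hp1
  obtain ⟨s, hs⟩ : ∃ s : ℕ → Set (ℕ → Finset ℕ), s = fun k =>
      (fun ω : ℕ → Finset ℕ => ω k) ⁻¹' {T | block k ∩ T ∈ E k} := ⟨_, rfl⟩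
  have hsE : ∀ k ω, (tr (fun ω : ℕ → Finset ℕ => blockSet ω) (block k) ω ∈ E k ↔ ω ∈ s k) := by
    intro k ω
    rw [tr_blockSet, hs]
    rfl
  have hblk : ∀ k, 2 ≤ k → relEntropy (blockLaw p) (fun ω => blockSet ω) (block k) ≤
      q k * ∑ T ∈ (block k).powerset, P k T * Real.log (P k T / cramerOn (block k) T) := by
    intro k hk
    rw [relEntropy_blockLaw hp0 hp1, mul_sum]
    refine sum_le_sum (fun T hT => ?_)
    rw [hp2 k hk]
    exact conv_atom (hc k hk T hT) ((hP k hk).1 T hT) (hq k).1 (hq k).2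
  refine ⟨ℕ → Finset ℕ, inferInstance, blockLaw p, hprob, fun ω => blockSet ω,
    isRandomSet_blockSet, ?_, ?_⟩
  · intro k
    induction k with
    | zero =>
      have h1 : low (0 + 1) = ∅ := by
        ext n
        rw [low, mem_Ico]
        simp
        omega
      rw [h1]
      unfold relEntropy
      simp [cramerOn, lawOn]
    | succ k ih =>
      rcases Nat.eq_zero_or_pos k with rfl | hk
      · have h1 := relEntropy_low_two hp0 hp1 (by rw [hp]; simp) (fun T hT => by rw [hp]; simp [hT])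
        simpa using h1
      · rw [relEntropy_low_succ hp0 hp1 (show 2 ≤ k + 1 by omega),
          Finset.sum_Ico_succ_top (show 2 ≤ k + 1 by omega)]
        have := hblk (k + 1) (by omega)
        linarith
  · intro hns
    have hsm : ∀ k, MeasurableSet (s k) := fun k => by
      rw [hs]; exact (measurable_pi_apply k) MeasurableSet.of_discrete
    have hind : iIndepSet s (blockLaw p) := by
      rw [hs]; exact indep_blockLaw hp0 hp1 (fun k => {T | block k ∩ T ∈ E k})
    have hge : ∀ k, 2 ≤ k → q k * ∑ T ∈ (block k).powerset with T ∈ E k, P k T ≤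
        (blockLaw p (s k)).toReal := by
      intro k hk
      have h1 : s k = (fun ω : ℕ → Finset ℕ => ω k) ⁻¹' {T | block k ∩ T ∈ E k} := by rw [hs]
      rw [h1, blockLaw_pre hp0 hp1, blockMeasure_apply (hp0 k), ENNReal.toReal_ofReal]
      · have h2 : (block k).powerset.filter (fun T => T ∈ {T : Finset ℕ | block k ∩ T ∈ E k}) =
            (block k).powerset.filter (fun T => T ∈ E k) := by
          ext T
          rw [mem_filter, mem_filter, mem_powerset, Set.mem_ofPred_eq]
          constructor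
          · rintro ⟨h3, h4⟩
            rw [inter_eq_right.2 h3] at h4
            exact ⟨h3, h4⟩
          · rintro ⟨h3, h4⟩
            rw [inter_eq_right.2 h3]
            exact ⟨h3, h4⟩
        rw [h2, mul_sum]
        refine sum_le_sum (fun T hT => ?_)
        rw [hp2 k hk]
        have h5 := (hc k hk T (mem_filter.1 hT).1).le
        have h6 : 0 ≤ 1 - q k := by linarith [(hq k).2]
        nlinarith [mul_nonneg h6 h5]
      · exact sum_nonneg (fun T hT => hp0 k T (mem_filter.1 hT).1)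
    have htop : ∑' k, blockLaw p (s k) = ⊤ := by
      by_contra hcon
      have h1 : Summable (fun k => (blockLaw p (s k)).toReal) := ENNReal.summable_toReal hcon
      apply hns
      rw [← summable_nat_add_iff 2] at h1 ⊢
      refine Summable.of_nonneg_of_le (fun n => ?_) (fun n => hge _ (by omega)) h1
      exact mul_nonneg (hq _).1 (sum_nonneg (fun T hT => (hP _ (by omega)).1 T (mem_filter.1 hT).1))
    have h1 := measure_limsup_eq_one hsm hind htop
    have h2 : ∀ᵐ ω ∂blockLaw p, ω ∈ limsup s atTop := by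
      have h3 : MeasurableSet (limsup s atTop) := MeasurableSet.measurableSet_limsup hsm
      exact (mem_ae_iff_prob_eq_one h3).2 h1
    filter_upwards [h2] with ω hω
    rw [mem_limsup_iff_frequently_mem] at hω
    exact hω.mono fun k hk => (hsE k ω).2 hk

end Pool.Agent.Q47.TL
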