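import Pool.Agent.Q120.TL.Stm2
import Pool.Agent.Q47.TL.MIXC

/-!
# Project TL (helper120), job MIXD: one coin for all blocks
-/

set_option autoImplicit false

namespace Pool.Agent.Q47.TL

open Finset MeasureTheory Filter Pool.Agent.Q120.ET Pool.Agent.Q120.GM Pool.Agent.Q120.GE
open Pool.Agent.Q120.RZ Pool.Agent.Q120.TL ProbabilityTheory Pool.Agent.Q151.SI Pool.Agent.Q222.GE.CHAIN
open scoped Topology

/-- the cumulative entropies of a law with independent blocks -/
theorem relEntropy_low_le {p : ℕ → Finset ℕ → ℝ} (hp : ∀ k, ∀ T ∈ (block k).powerset, 0 ≤ p k T)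
    (hp1 : ∀ k, ∑ T ∈ (block k).powerset, p k T = 1) (hp2 : p 1 ∅ = 1) (hp3 : ∀ T, T ≠ ∅ → p 1 T = 0)
    (k : ℕ) : relEntropy (blockLaw p) (fun ω => blockSet ω) (low (k + 1)) ≤
      3 + ∑ i ∈ Ico 2 (k + 1), ∑ T ∈ (block i).powerset, p i T * Real.log (p i T / cramerOn (block i) T) := by
  have hprob : IsProbabilityMeasure (blockLaw p) := isProb_blockLaw hp hp1
  induction k with
  | zero =>
    have h1 : low (0 + 1) = ∅ := by
      ext n
      rw [low, mem_Ico]
      simp
      omega
    rw [h1]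
    unfold relEntropy
    simp [cramerOn, lawOn]
  | succ k ih =>
    rcases Nat.eq_zero_or_pos k with rfl | hk
    · have h1 := relEntropy_low_two hp hp1 hp2 hp3
      simpa using h1
    · rw [relEntropy_low_succ hp hp1 (show 2 ≤ k + 1 by omega),
        Finset.sum_Ico_succ_top (show 2 ≤ k + 1 by omega), relEntropy_blockLaw hp hp1]
      linarith

theorem conv_two {a b c q : ℝ} (ha : 0 ≤ a) (hb : 0 ≤ b) (hc : 0 < c) (hq : 0 ≤ q) (hq1 : q ≤ 1) :
    ((1 - q) * a + q * b) * Real.log (((1 - q) * a + q * b) / c) ≤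
      (1 - q) * (a * Real.log (a / c)) + q * (b * Real.log (b / c)) := by
  have h1 := Real.convexOn_mul_log.2 (x := a / c) (Set.mem_Ici.2 (by positivity)) (y := b / c)
    (Set.mem_Ici.2 (by positivity)) (show 0 ≤ 1 - q by linarith) hq (by ring)
  simp only [smul_eq_mul] at h1
  have h2 : (1 - q) * (a / c) + q * (b / c) = ((1 - q) * a + q * b) / c := by ring
  rw [h2] at h1
  have h3 := mul_le_mul_of_nonneg_left h1 hc.le
  have e1 : c * (((1 - q) * a + q * b) / c * Real.log (((1 - q) * a + q * b) / c)) =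
      ((1 - q) * a + q * b) * Real.log (((1 - q) * a + q * b) / c) := by
    field_simp
  have e2 : c * ((1 - q) * (a / c * Real.log (a / c)) + q * (b / c * Real.log (b / c))) =
      (1 - q) * (a * Real.log (a / c)) + q * (b * Real.log (b / c)) := by
    field_simp
  rw [e1, e2] at h3
  exact h3

theorem t_MIXD : J_MIXD := by
  classical
  intro P q hP hq0 hq1
  obtain ⟨p, hp⟩ : ∃ p : ℕ → Finset ℕ → ℝ, p = fun k T => if 2 ≤ k then P k T
    else if T = ∅ then 1 else 0 := ⟨_, rfl⟩
  obtain ⟨r, hr⟩ : ∃ r : ℕ → Finset ℕ → ℝ, r = fun k T => if 2 ≤ k then cramerOn (block k) T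
    else if T = ∅ then 1 else 0 := ⟨_, rfl⟩
  have hc : ∀ k, 2 ≤ k → ∀ T ∈ (block k).powerset, 0 < cramerOn (block k) T := by
    intro k hk T hT
    exact cramerOn_pos (fun n hn => three_le_of_mem_block hk hn) (mem_powerset.1 hT)
  have hp2 : ∀ k, 2 ≤ k → ∀ T, p k T = P k T := by
    intro k hk T
    rw [hp]
    simp only [if_pos hk]
  have hr2 : ∀ k, 2 ≤ k → ∀ T, r k T = cramerOn (block k) T := by
    intro k hk T
    rw [hr]
    simp only [if_pos hk]
  have hp0 : ∀ k, ∀ T ∈ (block k).powerset, 0 ≤ p k T := by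
    intro k T hT
    by_cases hk : 2 ≤ k
    · rw [hp2 k hk]
      exact (hP k hk).1 T hT
    · rw [hp]
      simp only [if_neg hk]
      split_ifs <;> norm_num
  have hr0 : ∀ k, ∀ T ∈ (block k).powerset, 0 ≤ r k T := by
    intro k T hT
    by_cases hk : 2 ≤ k
    · rw [hr2 k hk]
      exact (hc k hk T hT).le
    · rw [hr]
      simp only [if_neg hk]
      split_ifs <;> norm_num
  have hp1 : ∀ k, ∑ T ∈ (block k).powerset, p k T = 1 := by
    intro k
    by_cases hk : 2 ≤ k
    · simp_rw [hp2 k hk]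
      exact (hP k hk).2
    · rw [hp]
      simp only [if_neg hk]
      rw [Finset.sum_ite_eq' (block k).powerset ∅ (fun _ => (1 : ℝ)), if_pos (empty_mem_powerset _)]
  have hr1 : ∀ k, ∑ T ∈ (block k).powerset, r k T = 1 := by
    intro k
    by_cases hk : 2 ≤ k
    · simp_rw [hr2 k hk]
      exact sum_cramerOn _
    · rw [hr]
      simp only [if_neg hk]
      rw [Finset.sum_ite_eq' (block k).powerset ∅ (fun _ => (1 : ℝ)), if_pos (empty_mem_powerset _)]
  have hprob1 : IsProbabilityMeasure (blockLaw p) := isProb_blockLaw hp0 hp1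
  have hprob0 : IsProbabilityMeasure (blockLaw r) := isProb_blockLaw hr0 hr1
  obtain ⟨μ, hμ⟩ : ∃ μ : Measure (ℕ → Finset ℕ), μ =
      ENNReal.ofReal (1 - q) • blockLaw r + ENNReal.ofReal q • blockLaw p := ⟨_, rfl⟩
  have hprob : IsProbabilityMeasure μ := by
    constructor
    rw [hμ]
    simp only [Measure.coe_add, Measure.coe_smul, Pi.add_apply, Pi.smul_apply, measure_univ, smul_eq_mul,
      mul_one]
    rw [← ENNReal.ofReal_add (by linarith) hq0.le]
    simp
  have hreal : ∀ s : Set (ℕ → Finset ℕ), μ.real s =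
      (1 - q) * (blockLaw r).real s + q * (blockLaw p).real s := by
    intro s
    rw [hμ, Measure.real]
    simp only [Measure.coe_add, Measure.coe_smul, Pi.add_apply, Pi.smul_apply, smul_eq_mul]
    rw [ENNReal.toReal_add (ENNReal.mul_ne_top ENNReal.ofReal_ne_top (measure_ne_top _ _))
      (ENNReal.mul_ne_top ENNReal.ofReal_ne_top (measure_ne_top _ _)), ENNReal.toReal_mul,
      ENNReal.toReal_mul, ENNReal.toReal_ofReal (by linarith), ENNReal.toReal_ofReal hq0.le]
    rfl
  refine ⟨ℕ → Finset ℕ, inferInstance, μ, hprob, fun ω => blockSet ω, isRandomSet_blockSet, ?_, ?_⟩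
  · intro k
    have h1 := relEntropy_low_le hr0 hr1 (by rw [hr]; simp) (fun T hT => by rw [hr]; simp [hT]) k
    have h2 := relEntropy_low_le hp0 hp1 (by rw [hp]; simp) (fun T hT => by rw [hp]; simp [hT]) k
    have h3 : ∑ i ∈ Ico 2 (k + 1), ∑ T ∈ (block i).powerset,
        r i T * Real.log (r i T / cramerOn (block i) T) = 0 := by
      refine sum_eq_zero (fun i hi => sum_eq_zero (fun T hT => ?_))
      rw [mem_Ico] at hi
      rw [hr2 i hi.1, div_self (hc i hi.1 T hT).ne', Real.log_one, mul_zero]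
    have h4 : ∑ i ∈ Ico 2 (k + 1), ∑ T ∈ (block i).powerset,
        p i T * Real.log (p i T / cramerOn (block i) T) = ∑ i ∈ Ico 2 (k + 1),
        ∑ T ∈ (block i).powerset, P i T * Real.log (P i T / cramerOn (block i) T) := by
      refine sum_congr rfl (fun i hi => sum_congr rfl (fun T _ => ?_))
      rw [mem_Ico] at hi
      rw [hp2 i hi.1]
    rw [h3] at h1
    rw [h4] at h2
    have h5 : relEntropy μ (fun ω => blockSet ω) (low (k + 1)) ≤
        (1 - q) * relEntropy (blockLaw r) (fun ω => blockSet ω) (low (k + 1)) +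
        q * relEntropy (blockLaw p) (fun ω => blockSet ω) (low (k + 1)) := by
      unfold relEntropy
      rw [mul_sum, mul_sum, ← sum_add_distrib]
      refine sum_le_sum (fun T hT => ?_)
      have h6 : lawOn μ (fun ω => blockSet ω) (low (k + 1)) T =
          (1 - q) * lawOn (blockLaw r) (fun ω => blockSet ω) (low (k + 1)) T +
          q * lawOn (blockLaw p) (fun ω => blockSet ω) (low (k + 1)) T := by
        unfold lawOn
        exact hreal _
      rw [h6]
      exact conv_two measureReal_nonneg measureReal_nonneg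
        (cramerOn_pos (fun n hn => by rw [low, mem_Ico] at hn; exact hn.1) (mem_powerset.1 hT)) hq0.le hq1
    have h7 : 0 ≤ 1 - q := by linarith
    have h8 := mul_le_mul_of_nonneg_left h1 h7
    have h9 := mul_le_mul_of_nonneg_left h2 hq0.le
    linarith
  · intro hcon
    have hac : ∀ᵐ ω ∂(blockLaw p), ∃ k : ℕ, 2 ≤ k ∧ P k (tr (fun ω => blockSet ω) (block k) ω) = 0 := by
      rw [hμ] at hcon
      have h1 := (ae_add_measure_iff.1 hcon).2
      rwa [Measure.ae_ennreal_smul_measure_iff (by
        rw [Ne, ENNReal.ofReal_eq_zero]; linarith)] at h1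
    have hne : ∀ᵐ ω ∂(blockLaw p), ∀ k : ℕ, 2 ≤ k → P k (tr (fun ω => blockSet ω) (block k) ω) ≠ 0 := by
      rw [ae_all_iff]
      intro k
      by_cases hk : 2 ≤ k
      · have h1 : (blockLaw p) ((fun ω : ℕ → Finset ℕ => ω k) ⁻¹' {T | P k (block k ∩ T) = 0}) = 0 := by
          rw [blockLaw_pre hp0 hp1, blockMeasure_apply (hp0 k), ENNReal.ofReal_eq_zero]
          apply le_of_eq
          refine sum_eq_zero (fun T hT => ?_)
          rw [mem_filter, mem_powerset, Set.mem_ofPred_eq, hp2 k hk] at *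
          rw [inter_eq_right.2 hT.1] at hT
          exact hT.2
        have h2 : ∀ᵐ ω ∂(blockLaw p), ω ∉ ((fun ω : ℕ → Finset ℕ => ω k) ⁻¹' {T | P k (block k ∩ T) = 0}) :=
          measure_eq_zero_iff_ae_notMem.1 h1
        filter_upwards [h2] with ω hω _ hcon2
        apply hω
        rw [tr_blockSet] at hcon2
        exact hcon2
      · exact Eventually.of_forall (fun ω h => absurd h hk)
    have hfalse : ∀ᵐ ω ∂(blockLaw p), False := by
      filter_upwards [hac, hne] with ω h1 h2
      obtain ⟨k, hk, h3⟩ := h1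
      exact h2 k hk h3
    have h1 := hfalse
    rw [ae_iff] at h1
    simp at h1

end Pool.Agent.Q47.TL
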