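import Pool.Agent.Q120.TL.Stm
import Pool.Agent.Q111.GE.LAW
import Pool.Agent.Q120.RN.Pattern

/-!
# Project TL (helper120), job TLC: the model conditioned on having no translate
-/

set_option autoImplicit false

namespace Pool.Agent.Q47.TL

open Finset MeasureTheory Filter Pool.Agent.Q120.ET Pool.Agent.Q120.GM Pool.Agent.Q120.GE
open Pool.Agent.Q120.RZ Pool.Agent.Q120.TL ProbabilityTheory Pool.Agent.Q111.GE Pool.Agent.Q120.RN
open scoped Topology

/-- conditioning on containing none of some sets -/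
theorem cond_none {B : Finset ℕ} (hB : ∀ n ∈ B, 3 ≤ n) (J : Finset (Finset ℕ)) (hJ : ∀ U ∈ J, U ⊆ B)
    {x : Finset ℕ → ℝ} (hx : ∀ U ∈ J, ∏ i ∈ U, pc i ≤ x U) (hx2 : ∀ U ∈ J, x U ≤ 1 / 2) :
    ∃ P : Finset ℕ → ℝ, (∀ T ∈ B.powerset, 0 ≤ P T) ∧ ∑ T ∈ B.powerset, P T = 1 ∧
      ∑ T ∈ B.powerset, P T * Real.log (P T / cramerOn B T) ≤ ∑ U ∈ J, 2 * x U ∧
      ∀ T ∈ B.powerset, P T ≠ 0 → ∀ U ∈ J, ¬ U ⊆ T := by
  classical
  obtain ⟨Ω, _, μ, _, A, hA⟩ := exists_model
  have hR : IsRandomSet A := hA.meas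
  obtain ⟨Q, hQ⟩ : ∃ Q : ℝ, Q = ∑ T ∈ B.powerset with (∀ U ∈ J, ¬ U ⊆ T), cramerOn B T := ⟨_, rfl⟩
  have hx0 : ∀ U ∈ J, 0 ≤ ∏ i ∈ U, pc i := fun U _ => prod_nonneg (fun i _ => pc_nonneg i)
  have h1 : ∏ U ∈ J, (1 - ∏ i ∈ U, pc i) ≤ Q := by
    refine (harris hA J (fun U => U)).trans (le_of_eq ?_)
    have h2 : none A J (fun U => U) = {ω | (fun T => ∀ U ∈ J, ¬ U ⊆ T) (tr A B ω)} := by
      ext ω
      show (∀ U ∈ J, ω ∉ all A U) ↔ ∀ U ∈ J, ¬ U ⊆ tr A B ω
      refine forall₂_congr (fun U hU => not_congr ?_)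
      constructor
      · intro h i hi
        exact mem_tr.2 ⟨hJ U hU hi, h i hi⟩
      · intro h i hi
        exact (mem_tr.1 (h hi)).2
    rw [h2, real_event hR B (fun T => ∀ U ∈ J, ¬ U ⊆ T), hQ]
    refine sum_congr rfl (fun T hT => ?_)
    exact (t_LAW Ω μ A).2 hA B T hB (mem_powerset.1 (mem_filter.1 hT).1)
  have hpos : ∀ U ∈ J, 0 < 1 - ∏ i ∈ U, pc i := by
    intro U hU
    have := hx U hU
    have := hx2 U hU
    linarith
  have hQ0 : 0 < Q := lt_of_lt_of_le (prod_pos hpos) h1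
  have hQlog : Real.log (1 / Q) ≤ ∑ U ∈ J, 2 * x U := by
    rw [one_div, Real.log_inv]
    have h3 := Real.log_le_log (prod_pos hpos) h1
    rw [Real.log_prod (fun U hU => (hpos U hU).ne')] at h3
    have h4 : ∑ U ∈ J, -(2 * x U) ≤ ∑ U ∈ J, Real.log (1 - ∏ i ∈ U, pc i) := by
      refine sum_le_sum (fun U hU => ?_)
      obtain ⟨t, ht⟩ : ∃ t : ℝ, t = ∏ i ∈ U, pc i := ⟨_, rfl⟩
      have h5 := hx U hU
      have h6 := hx2 U hU
      have h7 := hx0 U hU
      rw [← ht] at h5 h7 ⊢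
      have h8 := Real.one_sub_inv_le_log_of_pos (show 0 < 1 - t by linarith)
      refine le_trans ?_ h8
      have h9 : (1 - t)⁻¹ ≤ 1 + 2 * t := by
        rw [inv_le_iff_one_le_mul₀ (by linarith)]
        nlinarith
      linarith
    rw [sum_neg_distrib] at h4
    linarith
  obtain ⟨P, hP⟩ : ∃ P : Finset ℕ → ℝ, P = fun T => if (∀ U ∈ J, ¬ U ⊆ T) then cramerOn B T / Q else 0 :=
    ⟨_, rfl⟩
  have hPF : ∀ T, (∀ U ∈ J, ¬ U ⊆ T) → P T = cramerOn B T / Q := fun T hT => by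
    rw [hP]; simp only; rw [if_pos hT]
  have hPN : ∀ T, ¬ (∀ U ∈ J, ¬ U ⊆ T) → P T = 0 := fun T hT => by
    rw [hP]; simp only; rw [if_neg hT]
  have hsum : ∑ T ∈ B.powerset, P T = 1 := by
    have h2 := sum_filter_add_sum_filter_not B.powerset (fun T => ∀ U ∈ J, ¬ U ⊆ T) P
    rw [← h2, sum_congr rfl (fun T hT => hPF T (mem_filter.1 hT).2),
      sum_congr rfl (fun T hT => hPN T (mem_filter.1 hT).2), ← sum_div, ← hQ, div_self hQ0.ne']
    simp
  refine ⟨P, fun T hT => ?_, hsum, ?_, fun T _ hT => ?_⟩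
  · by_cases h : (∀ U ∈ J, ¬ U ⊆ T)
    · rw [hPF T h]
      exact div_nonneg (cramerOn_pos hB (mem_powerset.1 hT)).le hQ0.le
    · rw [hPN T h]
  · have h2 : ∀ T ∈ B.powerset, P T * Real.log (P T / cramerOn B T) = P T * Real.log (1 / Q) := by
      intro T hT
      by_cases h : (∀ U ∈ J, ¬ U ⊆ T)
      · have h3 := (cramerOn_pos hB (mem_powerset.1 hT)).ne'
        have h4 : P T / cramerOn B T = 1 / Q := by
          rw [hPF T h]
          field_simp
        rw [h4]
      · rw [hPN T h]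
        ring
    rw [sum_congr rfl h2, ← sum_mul, hsum, one_mul]
    exact hQlog
  · by_contra h
    exact hT (hPN T h)

theorem ev_log_le {c : ℝ} (hc : 0 < c) : ∀ᶠ j : ℕ in atTop, Real.log j ≤ c * j := by
  have h1 := (Real.isLittleO_log_id_atTop.comp_tendsto tendsto_natCast_atTop_atTop).def hc
  filter_upwards [h1, eventually_ge_atTop 1] with j hj hj1
  have h2 : (0 : ℝ) ≤ Real.log j := Real.log_natCast_nonneg j
  simp only [Function.comp, Real.norm_eq_abs, id] at hj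
  rw [abs_of_nonneg h2, abs_of_nonneg (Nat.cast_nonneg j)] at hj
  exact hj

theorem ev_tlc {κ ε : ℝ} (hκ : 0 < κ) (hε : 0 < ε) : ∀ᶠ j : ℕ in atTop, 4 ≤ j ∧ 1 ≤ ⌊κ * Ln j⌋₊ ∧
    ⌊κ * Ln j⌋₊ ≤ 2 ^ j ∧ 2 * (1 / (j * Real.log 2)) ^ ⌊κ * Ln j⌋₊ ≤ (2 : ℝ) ^ ((-κ + ε) * j) := by
  have hl2 : 0 < Real.log 2 := Real.log_pos (by norm_num)
  have hl2a := Real.log_two_gt_d9
  have hl2b := Real.log_two_lt_d9
  have hll : -(1 / 2) ≤ Real.log (Real.log 2) := by
    have h1 := Real.one_sub_inv_le_log_of_pos hl2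
    have h2 : (Real.log 2)⁻¹ ≤ 3 / 2 := by
      rw [inv_le_iff_one_le_mul₀ hl2]
      linarith
    linarith
  have hll0 : Real.log (Real.log 2) ≤ 0 := Real.log_nonpos hl2.le (by linarith)
  have htl : Tendsto (fun j : ℕ => Real.log (j : ℝ)) atTop atTop :=
    Real.tendsto_log_atTop.comp tendsto_natCast_atTop_atTop
  have hgeo := tendsto_pow_const_div_const_pow_of_one_lt 1 (show (1 : ℝ) < 2 by norm_num)
  filter_upwards [eventually_ge_atTop 4, ev_log_le (show 0 < κ * Real.log 2 by positivity),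
    ev_log_le (show 0 < ε / 4 * Real.log 2 by positivity), htl.eventually_ge_atTop (κ / ε),
    htl.eventually_ge_atTop 1, hgeo.eventually_lt_const (show (0 : ℝ) < 1 / κ by positivity)]
    with j hj h1 h2 h3 h4 h5
  obtain ⟨L, hL⟩ : ∃ L : ℝ, L = Real.log j := ⟨_, rfl⟩
  obtain ⟨l, hl⟩ : ∃ l : ℝ, l = Real.log 2 := ⟨_, rfl⟩
  have hj0 : (0 : ℝ) < j := by
    have : 0 < j := by omega
    exact_mod_cast this
  have hj4 : (4 : ℝ) ≤ j := by exact_mod_cast hj
  have hLn : Ln j = j * l / L := by unfold Ln; rw [← hl, ← hL]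
  rw [← hL] at h1 h2 h3 h4
  rw [← hl] at h1 h2 hl2 hl2a hl2b hll hll0 ⊢
  have hL0 : 0 < L := by linarith
  have hx0 : 0 ≤ κ * Ln j := by rw [hLn]; positivity
  refine ⟨hj, ?_, ?_, ?_⟩
  · apply Nat.le_floor
    rw [hLn, Nat.cast_one, ← mul_div_assoc, le_div_iff₀ hL0]
    linarith
  · have h6 : κ * Ln j ≤ (2 : ℝ) ^ j := by
      rw [pow_one, div_lt_div_iff₀ (by positivity) hκ] at h5
      have h7 : Ln j ≤ j := by
        rw [hLn, div_le_iff₀ hL0]
        nlinarith
      nlinarith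
    have h7 := (Nat.floor_le hx0).trans h6
    exact_mod_cast h7
  · have hfl := Nat.sub_one_lt_floor (κ * Ln j)
    obtain ⟨h, hh⟩ : ∃ h : ℕ, h = ⌊κ * Ln j⌋₊ := ⟨_, rfl⟩
    rw [← hh] at hfl ⊢
    have hjl : 0 < (j : ℝ) * l := by positivity
    have hbase : 1 / ((j : ℝ) * l) = Real.exp (-(L + Real.log l)) := by
      rw [hL, ← Real.log_mul hj0.ne' hl2.ne', Real.exp_neg, Real.exp_log hjl, one_div]
    have h2e : (2 : ℝ) = Real.exp l := by rw [hl, Real.exp_log (by norm_num)]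
    have hrhs : (2 : ℝ) ^ ((-κ + ε) * j) = Real.exp (l * ((-κ + ε) * j)) := by
      rw [Real.rpow_def_of_pos (by norm_num), ← hl]
    rw [hrhs, hbase, ← Real.exp_nat_mul]
    nth_rewrite 1 [h2e]
    rw [← Real.exp_add, Real.exp_le_exp]
    have hLl : 0 ≤ L + Real.log l := by linarith
    have h6 : (κ * Ln j - 1) * (L + Real.log l) ≤ h * (L + Real.log l) :=
      mul_le_mul_of_nonneg_right hfl.le hLl
    have h7 : κ * Ln j * L = κ * (j * l) := by
      rw [hLn]
      field_simp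
    have h8 : κ * Ln j * (-Real.log l) ≤ ε / 2 * (j * l) := by
      have h9 : κ * Ln j * (-Real.log l) ≤ κ * Ln j * (1 / 2) :=
        mul_le_mul_of_nonneg_left (by linarith) hx0
      have h10 : κ * Ln j ≤ ε * (j * l) := by
        rw [hLn, ← mul_div_assoc, div_le_iff₀ hL0]
        rw [div_le_iff₀ hε] at h3
        have : κ * (j * l) ≤ L * ε * (j * l) := mul_le_mul_of_nonneg_right h3 hjl.le
        linarith
      linarith
    have h9 : l ≤ L := by linarith
    nlinarith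

theorem t_TLC : J_TLC := by
  classical
  intro κ ε hκ hε
  filter_upwards [ev_tlc hκ hε] with j hj
  obtain ⟨hj4, hh1, hh2, hmain⟩ := hj
  intro K hK
  obtain ⟨h, hh⟩ : ∃ h : ℕ, h = ⌊κ * Ln j⌋₊ := ⟨_, rfl⟩
  have hHs : Hs κ j K = if K = j then range h else Ico (2 ^ K) (2 ^ K + h) := by unfold Hs; rw [hh]
  rw [← hh] at hh1 hh2 hmain
  have hHc : (Hs κ j K).card = h := by
    rw [hHs]
    split_ifs
    · exact card_range h
    · rw [Nat.card_Ico]; omega
  have hKj : j ≤ K := by omega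
  have hK2 : 2 ≤ K := by omega
  have hl2 : 0 < Real.log 2 := Real.log_pos (by norm_num)
  have hl2a := Real.log_two_gt_d9
  have hj0 : (0 : ℝ) < j := by
    have : 0 < j := by omega
    exact_mod_cast this
  have hj4' : (4 : ℝ) ≤ j := by exact_mod_cast hj4
  obtain ⟨b, hb⟩ : ∃ b : ℝ, b = 1 / (j * Real.log 2) := ⟨_, rfl⟩
  rw [← hb] at hmain
  have hb0 : 0 < b := by rw [hb]; positivity
  have hb1 : b ≤ 2 / j := by
    rw [hb, div_le_div_iff₀ (by positivity) hj0]
    nlinarith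
  have hb2 : b ≤ 1 / 2 := by
    refine hb1.trans ?_
    rw [div_le_div_iff₀ hj0 (by norm_num)]
    linarith
  have hpc : ∀ i ∈ block K, pc i ≤ b := by
    intro i hi
    have h3 := three_le_of_mem_block hK2 hi
    rw [block, mem_Ico] at hi
    unfold pc
    rw [if_pos h3, hb]
    apply one_div_le_one_div_of_le (by positivity)
    have h5 : (2 : ℝ) ^ j ≤ (i : ℝ) := by
      have : 2 ^ j ≤ i := (Nat.pow_le_pow_right (by norm_num) hKj).trans hi.1
      exact_mod_cast this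
    have := Real.log_le_log (by positivity) h5
    rwa [Real.log_pow] at this
  obtain ⟨J1, hJ1⟩ : ∃ J1 : Finset (Finset ℕ), J1 =
    ((block j).image (fun n => sh n (Hs κ j K))).filter (fun U => U ⊆ block K) := ⟨_, rfl⟩
  obtain ⟨J2, hJ2⟩ : ∃ J2 : Finset (Finset ℕ), J2 = if K = j then {{2 ^ (j + 1) - 1}} else ∅ := ⟨_, rfl⟩
  have hp1 : 1 ≤ 2 ^ j := Nat.one_le_two_pow
  have hp2 : 2 ^ (j + 1) = 2 * 2 ^ j := by ring
  have hJ1c : ∀ U ∈ J1, U ⊆ block K ∧ U.card = h := by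
    intro U hU
    rw [hJ1, mem_filter, mem_image] at hU
    obtain ⟨⟨n, _, rfl⟩, h2⟩ := hU
    exact ⟨h2, by rw [card_sh, hHc]⟩
  have hJ2c : ∀ U ∈ J2, U ⊆ block K ∧ U.card = 1 := by
    intro U hU
    rw [hJ2] at hU
    split_ifs at hU with hKj'
    · rw [mem_singleton] at hU
      subst hU
      refine ⟨?_, card_singleton _⟩
      rw [singleton_subset_iff, block, mem_Ico, hKj']
      omega
    · simp at hU
  have hx : ∀ U : Finset ℕ, U ⊆ block K → ∏ i ∈ U, pc i ≤ b ^ U.card := by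
    intro U hU
    rw [← prod_const]
    exact prod_le_prod (fun i _ => pc_nonneg i) (fun i hi => hpc i (hU hi))
  have hx2 : ∀ U : Finset ℕ, 1 ≤ U.card → b ^ U.card ≤ 1 / 2 := by
    intro U hU
    refine le_trans ?_ hb2
    calc b ^ U.card ≤ b ^ 1 := pow_le_pow_of_le_one hb0.le (by linarith) hU
      _ = b := pow_one b
  obtain ⟨P, hP0, hP1, hP2, hP3⟩ := cond_none (B := block K) (fun n hn => three_le_of_mem_block hK2 hn)
    (J1 ∪ J2) (fun U hU => by
      rcases mem_union.1 hU with hU | hU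
      · exact (hJ1c U hU).1
      · exact (hJ2c U hU).1) (x := fun U => b ^ U.card) (fun U hU => by
      rcases mem_union.1 hU with hU | hU
      · exact hx U (hJ1c U hU).1
      · exact hx U (hJ2c U hU).1) (fun U hU => by
      rcases mem_union.1 hU with hU | hU
      · exact hx2 U (by rw [(hJ1c U hU).2]; exact hh1)
      · exact hx2 U (by rw [(hJ2c U hU).2]))
  refine ⟨P, hP0, hP1, hP2.trans ?_, fun T hT hPT n hn => ?_⟩
  · have h1 : ∑ U ∈ J1 ∪ J2, 2 * b ^ U.card ≤ ∑ U ∈ J1, 2 * b ^ U.card + ∑ U ∈ J2, 2 * b ^ U.card := by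
      rw [← sum_union_inter]
      have : 0 ≤ ∑ U ∈ J1 ∩ J2, 2 * b ^ U.card := sum_nonneg (fun U _ => by positivity)
      linarith
    refine h1.trans (add_le_add ?_ ?_)
    · have h2 : ∑ U ∈ J1, 2 * b ^ U.card = J1.card * (2 * b ^ h) := by
        rw [sum_congr rfl (fun U hU => by rw [(hJ1c U hU).2]), sum_const, nsmul_eq_mul]
      rw [h2]
      have h3 : (J1.card : ℝ) ≤ (2 : ℝ) ^ j := by
        have h4 : J1.card ≤ 2 ^ j := by
          rw [hJ1]
          refine (card_filter_le _ _).trans (card_image_le.trans (le_of_eq ?_))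
          rw [block, Nat.card_Ico]
          omega
        exact_mod_cast h4
      calc (J1.card : ℝ) * (2 * b ^ h) ≤ (2 : ℝ) ^ j * (2 : ℝ) ^ ((-κ + ε) * j) :=
            mul_le_mul h3 hmain (by positivity) (by positivity)
        _ = (2 : ℝ) ^ ((1 - κ + ε) * j) := by
            rw [← Real.rpow_natCast, ← Real.rpow_add (by norm_num)]
            congr 1
            ring
    · have h2 : ∑ U ∈ J2, 2 * b ^ U.card = J2.card * (2 * b) := by
        rw [sum_congr rfl (fun U hU => by rw [(hJ2c U hU).2, pow_one]), sum_const, nsmul_eq_mul]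
      rw [h2]
      have h3 : (J2.card : ℝ) ≤ 1 := by
        have : J2.card ≤ 1 := by
          rw [hJ2]
          split_ifs
          · simp
          · simp
        exact_mod_cast this
      have h4 : 4 / (j : ℝ) = 2 * (2 / j) := by ring
      rw [h4]
      have h5 : (0 : ℝ) ≤ J2.card := Nat.cast_nonneg _
      nlinarith
  · have hPJ := hP3 T hT hPT
    have hn' := hn
    rw [block, mem_Ico] at hn'
    by_cases hs : sh n (Hs κ j K) ⊆ block K
    · have h1 := hPJ (sh n (Hs κ j K)) (mem_union_left _ (by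
        rw [hJ1, mem_filter, mem_image]
        exact ⟨⟨n, hn, rfl⟩, hs⟩))
      rw [not_subset] at h1
      obtain ⟨m, hm, hmT⟩ := h1
      have h2 := hs hm
      unfold sh at hm
      rw [mem_image] at hm
      obtain ⟨a, ha, rfl⟩ := hm
      exact ⟨a, ha, h2, hmT⟩
    · rw [not_subset] at hs
      obtain ⟨m, hm, hmB⟩ := hs
      unfold sh at hm
      rw [mem_image] at hm
      obtain ⟨a, ha, rfl⟩ := hm
      rw [hHs] at ha
      by_cases hKj' : K = j
      · rw [if_pos hKj', mem_range] at ha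
        rw [block, mem_Ico, hKj'] at hmB
        refine ⟨2 ^ (j + 1) - 1 - n, ?_, ?_, ?_⟩
        · rw [hHs, if_pos hKj', mem_range]
          omega
        · rw [block, mem_Ico, hKj']
          omega
        · have h1 := hPJ {2 ^ (j + 1) - 1} (mem_union_right _ (by
            rw [hJ2, if_pos hKj', mem_singleton]))
          rw [singleton_subset_iff] at h1
          have h2 : n + (2 ^ (j + 1) - 1 - n) = 2 ^ (j + 1) - 1 := by omega
          rw [h2]
          exact h1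
      · rw [if_neg hKj', mem_Ico] at ha
        exfalso
        apply hmB
        rw [block, mem_Ico]
        have h3 : 2 ^ (j + 2) ≤ 2 ^ K := Nat.pow_le_pow_right (by norm_num) (by omega)
        have h4 : 2 ^ (j + 2) = 4 * 2 ^ j := by ring
        have h5 : 2 ^ (K + 1) = 2 * 2 ^ K := by ring
        omega

end Pool.Agent.Q47.TL
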