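import Pool.Agent.Q120.TL.Stm
import Pool.Agent.Q120.RN.Sets
import Pool.Agent.Q47.TL.TLC

/-!
# Project TL (helper120), job TLA: every small set of shifts in the model
-/

set_option autoImplicit false

namespace Pool.Agent.Q47.TL

open Finset MeasureTheory Filter Pool.Agent.Q120.ET Pool.Agent.Q120.GM Pool.Agent.Q120.GE
open Pool.Agent.Q120.RZ Pool.Agent.Q120.TL ProbabilityTheory Pool.Agent.Q111.GE Pool.Agent.Q120.RN
open Pool.Agent.Q120.AD
open scoped Topology

/-- no translate of a fixed set in a disjoint family -/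
theorem none_translate {Ω : Type} [MeasurableSpace Ω] {μ : Measure Ω} [IsProbabilityMeasure μ] {A : Ω → Set ℕ}
    (hA : IsModel μ pc A) (Z : Finset ℕ) (W : ℕ → Finset ℕ)
    (hd : ∀ i ∈ Z, ∀ j ∈ Z, i ≠ j → Disjoint (W i) (W j)) {p : ℝ}
    (hp : ∀ i ∈ Z, p ≤ ∏ m ∈ W i, pc m) :
    μ.real {ω | ∀ i ∈ Z, ω ∉ all A (W i)} ≤ Real.exp (-(Z.card * p)) := by
  have h1 : {ω | ∀ i ∈ Z, ω ∉ all A (W i)} = ⋂ i ∈ Z, (all A (W i))ᶜ := by
    ext ω
    simp
  rw [h1, indep_many hA Z (fun i => (W i : Set ℕ)) (fun i hi j hj hij => by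
      rw [Finset.disjoint_coe]
      exact hd i hi j hj hij) (fun i => (all A (W i))ᶜ)
    (fun i _ => MeasurableSet.compl (F_all (fun m hm => hm)))]
  have h2 : ∀ i ∈ Z, μ.real (all A (W i))ᶜ ≤ Real.exp (-p) := by
    intro i hi
    rw [probReal_compl_eq_one_sub (meas_all hA _), real_all hA]
    have := Real.one_sub_le_exp_neg p
    have := hp i hi
    linarith
  refine (Finset.prod_le_prod (fun i _ => measureReal_nonneg) h2).trans ?_
  rw [prod_const, ← Real.exp_nat_mul]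
  apply le_of_eq
  congr 1
  ring

theorem ev_tla {κ C η : ℝ} (hκ : 0 < κ) (hC : 1 ≤ C) (hη : 0 < η) (hs : κ + η < 1) :
    ∀ᶠ j : ℕ in atTop, 4 ≤ j ∧ ∀ h : ℕ, (h : ℝ) ≤ κ * Ln j → (h : ℝ) ≤ j ∧ ∀ z : ℕ,
      2 ^ j ≤ (h ^ 2 + 1) * z →
        (2 : ℝ) ^ ((1 - κ - η) * j) + (C + 2) * j ^ 2 ≤ z * (1 / (C * j + 2)) ^ h := by
  have hl2 : 0 < Real.log 2 := Real.log_pos (by norm_num)
  have hl2a := Real.log_two_gt_d9
  have hl2b := Real.log_two_lt_d9
  have hlC : 0 ≤ Real.log (C + 2) := Real.log_nonneg (by linarith)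
  have htl : Tendsto (fun j : ℕ => Real.log (j : ℝ)) atTop atTop :=
    Real.tendsto_log_atTop.comp tendsto_natCast_atTop_atTop
  have hb : 1 < (2 : ℝ) ^ (η / 2) := Real.one_lt_rpow (by norm_num) (by linarith)
  have hgeo := tendsto_pow_const_div_const_pow_of_one_lt 4 hb
  filter_upwards [eventually_ge_atTop 4, htl.eventually_ge_atTop (κ * Real.log (C + 2) / (η / 2)),
    htl.eventually_ge_atTop 1,
    hgeo.eventually_lt_const (show (0 : ℝ) < 1 / (2 * (C + 3)) by positivity)] with j hj h3 h4 h5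
  obtain ⟨L, hL⟩ : ∃ L : ℝ, L = Real.log j := ⟨_, rfl⟩
  obtain ⟨l, hl⟩ : ∃ l : ℝ, l = Real.log 2 := ⟨_, rfl⟩
  have hj0 : (0 : ℝ) < j := by
    have : 0 < j := by omega
    exact_mod_cast this
  have hj4 : (4 : ℝ) ≤ j := by exact_mod_cast hj
  have hLn : Ln j = j * l / L := by unfold Ln; rw [← hl, ← hL]
  rw [← hL] at h3 h4
  rw [← hl] at hl2 hl2a hl2b
  have hL0 : 0 < L := by linarith
  have hLn0 : 0 ≤ Ln j := by rw [hLn]; positivity
  refine ⟨hj, fun h hh => ?_⟩
  have hhj : (h : ℝ) ≤ j := by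
    have h7 : Ln j ≤ j := by
      rw [hLn, div_le_iff₀ hL0]
      nlinarith
    nlinarith
  refine ⟨hhj, fun z hz => ?_⟩
  have hCj : 0 < C * j + 2 := by positivity
  -- the power
  have hpow : (2 : ℝ) ^ (-((κ + η / 2) * j)) ≤ (1 / (C * j + 2)) ^ h := by
    have hbase : 1 / (C * (j : ℝ) + 2) = Real.exp (-Real.log (C * j + 2)) := by
      rw [Real.exp_neg, Real.exp_log hCj, one_div]
    rw [hbase, ← Real.exp_nat_mul, Real.rpow_def_of_pos (by norm_num), ← hl, Real.exp_le_exp]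
    have h6 : Real.log (C * j + 2) ≤ Real.log (C + 2) + L := by
      rw [hL, ← Real.log_mul (by linarith) hj0.ne']
      apply Real.log_le_log hCj
      nlinarith
    have h7 : h * Real.log (C * j + 2) ≤ κ * Ln j * (Real.log (C + 2) + L) := by
      have h8 : 0 ≤ Real.log (C + 2) + L := by linarith
      calc (h : ℝ) * Real.log (C * j + 2) ≤ h * (Real.log (C + 2) + L) :=
            mul_le_mul_of_nonneg_left h6 (Nat.cast_nonneg h)
        _ ≤ κ * Ln j * (Real.log (C + 2) + L) := mul_le_mul_of_nonneg_right hh h8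
    have h8 : Ln j * L = j * l := by rw [hLn]; field_simp
    have h9 : κ * Ln j * Real.log (C + 2) ≤ η / 2 * (j * l) := by
      rw [div_le_iff₀ (by linarith)] at h3
      have h10 : κ * Real.log (C + 2) * Ln j ≤ L * (η / 2) * Ln j :=
        mul_le_mul_of_nonneg_right h3 hLn0
      nlinarith
    nlinarith
  have hz' : (2 : ℝ) ^ j ≤ (2 * j ^ 2) * z := by
    have h6 : (2 : ℝ) ^ j ≤ ((h : ℝ) ^ 2 + 1) * z := by exact_mod_cast hz
    have h7 : (h : ℝ) ^ 2 + 1 ≤ 2 * j ^ 2 := by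
      have : (h : ℝ) ^ 2 ≤ (j : ℝ) ^ 2 := pow_le_pow_left₀ (Nat.cast_nonneg h) hhj 2
      nlinarith
    exact h6.trans (mul_le_mul_of_nonneg_right h7 (Nat.cast_nonneg z))
  have hz2 : (2 : ℝ) ^ j / (2 * j ^ 2) ≤ z := by
    rw [div_le_iff₀ (by positivity)]
    linarith
  have h6 : (2 : ℝ) ^ j / (2 * j ^ 2) * (2 : ℝ) ^ (-((κ + η / 2) * j)) ≤ z * (1 / (C * j + 2)) ^ h :=
    mul_le_mul hz2 hpow (by positivity) (Nat.cast_nonneg z)
  refine le_trans ?_ h6
  obtain ⟨y, hy⟩ : ∃ y : ℝ, y = (2 : ℝ) ^ ((1 - κ - η) * j) := ⟨_, rfl⟩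
  obtain ⟨w, hw⟩ : ∃ w : ℝ, w = (2 : ℝ) ^ (η / 2 * j) := ⟨_, rfl⟩
  have hy1 : 1 ≤ y := by
    rw [hy]
    exact Real.one_le_rpow (by norm_num) (mul_nonneg (by linarith) hj0.le)
  have e1 : (2 : ℝ) ^ j / (2 * j ^ 2) * (2 : ℝ) ^ (-((κ + η / 2) * j)) = y * w / (2 * j ^ 2) := by
    have e2 : (2 : ℝ) ^ j * (2 : ℝ) ^ (-((κ + η / 2) * j)) = y * w := by
      rw [hy, hw, ← Real.rpow_natCast, ← Real.rpow_add (by norm_num), ← Real.rpow_add (by norm_num)]
      congr 1
      ring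
    rw [← e2]
    ring
  rw [e1, ← hy, le_div_iff₀ (by positivity)]
  have hw2 : 2 * (C + 3) * (j : ℝ) ^ 4 ≤ w := by
    have e3 : w = ((2 : ℝ) ^ (η / 2)) ^ j := by
      rw [hw, Real.rpow_mul (by norm_num), Real.rpow_natCast]
    have hpos : (0 : ℝ) < ((2 : ℝ) ^ (η / 2)) ^ j := by positivity
    rw [div_lt_div_iff₀ hpos (by positivity)] at h5
    rw [e3]
    linarith
  have hj2 : (1 : ℝ) ≤ (j : ℝ) ^ 2 := by nlinarith
  have h7 : (y + (C + 2) * (j : ℝ) ^ 2) ≤ y * ((C + 3) * j ^ 2) := by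
    have h8 : (C + 2) * (j : ℝ) ^ 2 ≤ y * ((C + 2) * j ^ 2) :=
      le_mul_of_one_le_left (by positivity) hy1
    have h9 : y ≤ y * (j : ℝ) ^ 2 := le_mul_of_one_le_right (by linarith) hj2
    have h10 : y * ((C + 3) * (j : ℝ) ^ 2) = y * (j : ℝ) ^ 2 + y * ((C + 2) * j ^ 2) := by ring
    rw [h10]
    exact add_le_add h9 h8
  calc (y + (C + 2) * (j : ℝ) ^ 2) * (2 * j ^ 2) ≤ y * ((C + 3) * j ^ 2) * (2 * j ^ 2) :=
        mul_le_mul_of_nonneg_right h7 (by positivity)
    _ = y * (2 * (C + 3) * (j : ℝ) ^ 4) := by ring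
    _ ≤ y * w := mul_le_mul_of_nonneg_left hw2 (by linarith)

theorem count_tla {C : ℝ} (hC : 1 ≤ C) {j K M : ℕ} (hj : 4 ≤ j) (hK : (K : ℝ) ≤ j)
    (hM : (M : ℝ) ≤ (2 : ℝ) ^ (C * j) + 1) :
    ((K + 1 : ℕ) : ℝ) * (M : ℝ) ^ K ≤ Real.exp ((C + 2) * j ^ 2) := by
  have hl2 : 0 < Real.log 2 := Real.log_pos (by norm_num)
  have hl2b := Real.log_two_lt_d9
  have hj4 : (4 : ℝ) ≤ j := by exact_mod_cast hj
  have h1 : ((K + 1 : ℕ) : ℝ) ≤ Real.exp j := by
    have := Real.add_one_le_exp (j : ℝ)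
    push_cast
    linarith
  have h2 : (M : ℝ) ≤ Real.exp (C * j + 1) := by
    refine hM.trans ?_
    have h3 : (2 : ℝ) ^ (C * j) ≤ Real.exp (C * j) := by
      rw [Real.rpow_def_of_pos (by norm_num), Real.exp_le_exp]
      have : 0 ≤ C * (j : ℝ) := by positivity
      nlinarith
    have h4 : Real.exp (C * j + 1) = Real.exp (C * j) * Real.exp 1 := Real.exp_add _ _
    have h5 : 2 ≤ Real.exp 1 := by
      have := Real.add_one_le_exp (1 : ℝ)
      linarith
    have h6 : 1 ≤ Real.exp (C * j) := Real.one_le_exp (by positivity)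
    rw [h4]
    nlinarith
  have h3 : (M : ℝ) ^ K ≤ Real.exp (j * (C * j + 1)) := by
    calc (M : ℝ) ^ K ≤ Real.exp (C * j + 1) ^ K := pow_le_pow_left₀ (Nat.cast_nonneg M) h2 K
      _ = Real.exp (K * (C * j + 1)) := by rw [← Real.exp_nat_mul]
      _ ≤ Real.exp (j * (C * j + 1)) := by
        rw [Real.exp_le_exp]
        exact mul_le_mul_of_nonneg_right hK (by positivity)
  calc ((K + 1 : ℕ) : ℝ) * (M : ℝ) ^ K ≤ Real.exp j * Real.exp (j * (C * j + 1)) :=
        mul_le_mul h1 h3 (by positivity) (Real.exp_pos _).le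
    _ = Real.exp (j + j * (C * j + 1)) := (Real.exp_add _ _).symm
    _ ≤ Real.exp ((C + 2) * j ^ 2) := by
        rw [Real.exp_le_exp]
        nlinarith

theorem t_TLA : J_TLA := by
  classical
  intro κ C η hκ hC hη hs
  filter_upwards [ev_tla hκ hC hη hs] with j hj
  obtain ⟨hj4, hnum⟩ := hj
  intro Ω _ μ _ A hA
  have hl2 : 0 < Real.log 2 := Real.log_pos (by norm_num)
  have hl2b := Real.log_two_lt_d9
  have hj0 : (0 : ℝ) < j := by
    have : 0 < j := by omega
    exact_mod_cast this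
  have hx0 : 0 ≤ κ * Ln j := by
    have h1 := Real.log_natCast_nonneg j
    unfold Ln
    positivity
  obtain ⟨K, hK⟩ : ∃ K : ℕ, K = ⌊κ * Ln j⌋₊ := ⟨_, rfl⟩
  obtain ⟨M, hM⟩ : ∃ M : ℕ, M = ⌊(2 : ℝ) ^ (C * j)⌋₊ + 1 := ⟨_, rfl⟩
  have hK1 : (K : ℝ) ≤ κ * Ln j := by rw [hK]; exact Nat.floor_le hx0
  have hM1 : (M : ℝ) ≤ (2 : ℝ) ^ (C * j) + 1 := by
    rw [hM]
    push_cast
    have := Nat.floor_le (show 0 ≤ (2 : ℝ) ^ (C * j) by positivity)
    linarith
  obtain ⟨I, hI⟩ : ∃ I : Finset (Finset ℕ), I = (range (K + 1)).biUnion (fun i => (range M).powersetCard i) :=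
    ⟨_, rfl⟩
  have hcard : (I.card : ℝ) ≤ Real.exp ((C + 2) * j ^ 2) := by
    have h1 : I.card ≤ (K + 1) * M ^ K := by
      rw [hI]
      refine card_biUnion_le.trans ?_
      have h2 : ∀ i ∈ range (K + 1), ((range M).powersetCard i).card ≤ M ^ K := by
        intro i hi
        rw [card_powersetCard, card_range]
        refine (Nat.choose_le_pow _ _).trans ?_
        exact Nat.pow_le_pow_right (by omega) (by rw [mem_range] at hi; omega)
      refine (sum_le_card_nsmul _ _ _ h2).trans ?_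
      rw [card_range, smul_eq_mul]
    refine le_trans ?_ (count_tla hC hj4 (hnum K hK1).1 hM1)
    exact_mod_cast h1
  obtain ⟨E, hE⟩ : ∃ E : Finset ℕ → Set Ω, E = fun (H : Finset ℕ) =>
      if (∀ a ∈ H, (a : ℝ) ≤ (2 : ℝ) ^ (C * j)) ∧ (H.card : ℝ) ≤ κ * Ln j then
        {ω | ∀ n ∈ block j, ∃ a ∈ H, n + a ∉ A ω} else ∅ := ⟨_, rfl⟩
  have hsub : {ω | ∃ H : Finset ℕ, (∀ a ∈ H, (a : ℝ) ≤ (2 : ℝ) ^ (C * j)) ∧ (H.card : ℝ) ≤ κ * Ln j ∧
      ∀ n ∈ block j, ∃ a ∈ H, n + a ∉ A ω} ⊆ ⋃ H ∈ I, E H := by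
    rintro ω ⟨H, h1, h2, h3⟩
    refine Set.mem_biUnion (x := H) ?_ ?_
    · rw [hI]
      show H ∈ (range (K + 1)).biUnion (fun i => (range M).powersetCard i)
      rw [mem_biUnion]
      refine ⟨H.card, ?_, ?_⟩
      · rw [mem_range, hK]
        have := Nat.le_floor h2
        omega
      · rw [mem_powersetCard]
        refine ⟨fun a ha => ?_, rfl⟩
        rw [mem_range, hM]
        have := Nat.le_floor (h1 a ha)
        omega
    · rw [hE]
      simp only
      rw [if_pos ⟨h1, h2⟩]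
      exact h3
  have hEb : ∀ H ∈ I, μ.real (E H) ≤ Real.exp (-((2 : ℝ) ^ ((1 - κ - η) * j) + (C + 2) * j ^ 2)) := by
    intro H _
    rw [hE]
    simp only
    split_ifs with h
    · obtain ⟨h1, h2⟩ := h
      obtain ⟨Z, hZ1, hZ2, hZ3⟩ := disjoint_translates (block j) H
      have hbc : (block j).card = 2 ^ j := by
        have : 2 ^ (j + 1) = 2 * 2 ^ j := by ring
        rw [block, Nat.card_Ico]
        omega
      rw [hbc] at hZ3
      have hnum2 := (hnum H.card h2).2 Z.card hZ3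
      have hsub2 : {ω | ∀ n ∈ block j, ∃ a ∈ H, n + a ∉ A ω} ⊆
          {ω | ∀ n ∈ Z, ω ∉ all A (sh n H)} := by
        intro ω hω n hn hcon
        obtain ⟨a, ha, h3⟩ := hω n (hZ1 hn)
        exact h3 (hcon _ (mem_sh.2 ⟨a, ha, rfl⟩))
      refine (measureReal_mono (μ := μ) hsub2 (measure_ne_top _ _)).trans ?_
      refine (none_translate hA Z (fun n => sh n H) hZ2 (p := (1 / (C * j + 2)) ^ H.card)
        (fun n hn => ?_)).trans ?_
      · rw [← card_sh n H, ← prod_const]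
        apply Finset.prod_le_prod
        · intro i _
          positivity
        · intro m hm
          obtain ⟨a, ha, rfl⟩ := mem_sh.1 hm
          have h3 := hZ1 hn
          have h4 := three_le_of_mem_block (show 2 ≤ j by omega) h3
          rw [block, mem_Ico] at h3
          have h5 := h1 a ha
          unfold pc
          rw [if_pos (by omega)]
          have h6 := one_lt_log (show 3 ≤ n + a by omega)
          apply one_div_le_one_div_of_le (by linarith)
          have h7 : ((n + a : ℕ) : ℝ) ≤ (2 : ℝ) ^ (C * j + 2) := by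
            have h8 : (n : ℝ) ≤ 2 * (2 : ℝ) ^ (C * j) := by
              have h9 : (n : ℝ) ≤ (2 : ℝ) ^ (j + 1) := by exact_mod_cast h3.2.le
              have h10 : (2 : ℝ) ^ (j : ℕ) ≤ (2 : ℝ) ^ (C * j) := by
                rw [← Real.rpow_natCast]
                apply Real.rpow_le_rpow_of_exponent_le (by norm_num)
                nlinarith
              rw [pow_succ] at h9
              linarith
            have h9 : (2 : ℝ) ^ (C * j + 2) = (2 : ℝ) ^ (C * j) * 4 := by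
              rw [Real.rpow_add (by norm_num)]
              norm_num
            have h10 : (0 : ℝ) < (2 : ℝ) ^ (C * j) := by positivity
            rw [h9]
            push_cast
            linarith
          have h8 := Real.log_le_log (by
            have : 0 < n + a := by omega
            exact_mod_cast this) h7
          rw [Real.log_rpow (by norm_num)] at h8
          have h9 : 0 ≤ C * (j : ℝ) + 2 := by positivity
          nlinarith
      · rw [Real.exp_le_exp]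
        linarith
    · rw [measureReal_empty]
      exact (Real.exp_pos _).le
  have h1 := (measureReal_mono (μ := μ) hsub (measure_ne_top _ _)).trans (real_biUnion_le I E hEb)
  refine h1.trans ?_
  refine (mul_le_mul_of_nonneg_right hcard (Real.exp_pos _).le).trans ?_
  rw [← Real.exp_add, Real.exp_le_exp]
  linarith

end Pool.Agent.Q47.TL
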