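import Pool.Agent.Q120.TL.Stm2
import Pool.Agent.Q47.TL.TLA

/-!
# Project TL (helper120), job TLB: a fixed tuple in the model
-/

set_option autoImplicit false

namespace Pool.Agent.Q47.TL

open Finset MeasureTheory Filter Pool.Agent.Q120.ET Pool.Agent.Q120.GM Pool.Agent.Q120.GE
open Pool.Agent.Q120.RZ Pool.Agent.Q120.TL ProbabilityTheory Pool.Agent.Q111.GE Pool.Agent.Q120.RN
open Pool.Agent.Q120.AD
open scoped Topology

theorem t_TLB : J_TLB := by
  classical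
  intro H
  obtain ⟨h, hh⟩ : ∃ h : ℕ, h = H.card := ⟨_, rfl⟩
  obtain ⟨b, hb⟩ : ∃ b : ℕ, b = H.sup id := ⟨_, rfl⟩
  have hHb : ∀ a ∈ H, a ≤ b := fun a ha => by rw [hb]; exact Finset.le_sup (f := id) ha
  refine ⟨1 / (2 * ((h : ℝ) ^ 2 + 1) * 2 ^ h), by positivity, ?_⟩
  have hgeo : ∀ᶠ k : ℕ in atTop, 2 * b ≤ 2 ^ k := by
    have h1 : Tendsto (fun k : ℕ => 2 ^ k) atTop atTop := tendsto_pow_atTop_atTop_of_one_lt (by norm_num)
    exact h1.eventually_ge_atTop (2 * b)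
  filter_upwards [hgeo, eventually_ge_atTop 2] with k hkb hk
  intro Ω _ μ _ A hA
  have hk0 : (0 : ℝ) < k := by
    have : 0 < k := by omega
    exact_mod_cast this
  have hk2 : (2 : ℝ) ≤ k := by exact_mod_cast hk
  have hp2 : 2 ^ (k + 1) = 2 * 2 ^ k := by ring
  have hp4 : 2 ^ 2 ≤ 2 ^ k := Nat.pow_le_pow_right (by norm_num) hk
  obtain ⟨Z, hZ1, hZ2, hZ3⟩ := disjoint_translates (Ico (2 ^ k) (2 ^ (k + 1) - b)) H
  rw [Nat.card_Ico, ← hh] at hZ3
  have hZc : (2 : ℝ) ^ k / (2 * ((h : ℝ) ^ 2 + 1)) ≤ Z.card := by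
    rw [div_le_iff₀ (by positivity)]
    have h1 : 2 ^ k ≤ 2 * ((h ^ 2 + 1) * Z.card) := by omega
    have h2 : (2 : ℝ) ^ k ≤ 2 * (((h : ℝ) ^ 2 + 1) * Z.card) := by exact_mod_cast h1
    linarith
  have hsub : {ω | ∀ n ∈ block k, ∃ a ∈ H, n + a ∉ tr A (low (k + 1)) ω} ⊆
      {ω | ∀ n ∈ Z, ω ∉ all A (sh n H)} := by
    intro ω hω n hn hcon
    have h1 := hZ1 hn
    rw [mem_Ico] at h1
    obtain ⟨a, ha, h3⟩ := hω n (by rw [block, mem_Ico]; omega)
    have h4 := hHb a ha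
    exact h3 (mem_tr.2 ⟨by rw [low, mem_Ico]; omega, hcon _ (mem_sh.2 ⟨a, ha, rfl⟩)⟩)
  refine (measureReal_mono (μ := μ) hsub (measure_ne_top _ _)).trans ?_
  refine (none_translate hA Z (fun n => sh n H) hZ2 (p := (1 / (2 * k)) ^ h) (fun n hn => ?_)).trans ?_
  · rw [hh, ← card_sh n H, ← prod_const]
    apply Finset.prod_le_prod
    · intro i _
      positivity
    · intro m hm
      obtain ⟨a, ha, rfl⟩ := mem_sh.1 hm
      have h1 := hZ1 hn
      rw [mem_Ico] at h1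
      have h5 := hHb a ha
      unfold pc
      rw [if_pos (by omega)]
      have h6 := one_lt_log (show 3 ≤ n + a by omega)
      apply one_div_le_one_div_of_le (by linarith)
      have h7 : ((n + a : ℕ) : ℝ) ≤ (2 : ℝ) ^ (k + 1) := by
        have : n + a ≤ 2 ^ (k + 1) := by omega
        exact_mod_cast this
      have h8 := Real.log_le_log (by
        have : 0 < n + a := by omega
        exact_mod_cast this) h7
      rw [Real.log_pow, Nat.cast_add k 1, Nat.cast_one] at h8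
      have hl2b := Real.log_two_lt_d9
      nlinarith
  · rw [Real.exp_le_exp, neg_le_neg_iff, ← hh]
    have e1 : 1 / (2 * ((h : ℝ) ^ 2 + 1) * 2 ^ h) * 2 ^ k / (k : ℝ) ^ h =
        (2 : ℝ) ^ k / (2 * ((h : ℝ) ^ 2 + 1)) * (1 / (2 * k)) ^ h := by
      rw [div_pow, mul_pow, one_pow]
      field_simp
    rw [e1]
    exact mul_le_mul_of_nonneg_right hZc (by positivity)

end Pool.Agent.Q47.TL
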