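import Pool.Agent.Q120.TL.Stm2
import Pool.Agent.Q47.TL.TLC

/-!
# Project TL (helper120), job TLD: the model conditioned on having no run of `h` elements
-/

set_option autoImplicit false

namespace Pool.Agent.Q47.TL

open Finset MeasureTheory Filter Pool.Agent.Q120.ET Pool.Agent.Q120.GM Pool.Agent.Q120.GE
open Pool.Agent.Q120.RZ Pool.Agent.Q120.TL ProbabilityTheory Pool.Agent.Q111.GE Pool.Agent.Q120.RN
open scoped Topology

theorem t_TLD : J_TLD := by
  classical
  intro h hh1
  refine ⟨2 * 2 ^ h + 1, by positivity, ?_⟩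
  have hgeo := tendsto_pow_const_div_const_pow_of_one_lt h (show (1 : ℝ) < 2 by norm_num)
  filter_upwards [eventually_ge_atTop 4, hgeo.eventually_lt_const (show (0 : ℝ) < 1 / 4 by norm_num)]
    with k hk4 hg
  have hk2 : 2 ≤ k := by omega
  have hl2 : 0 < Real.log 2 := Real.log_pos (by norm_num)
  have hl2a := Real.log_two_gt_d9
  have hj0 : (0 : ℝ) < k := by
    have : 0 < k := by omega
    exact_mod_cast this
  have hj4' : (4 : ℝ) ≤ k := by exact_mod_cast hk4
  obtain ⟨b, hb⟩ : ∃ b : ℝ, b = 1 / (k * Real.log 2) := ⟨_, rfl⟩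
  have hb0 : 0 < b := by rw [hb]; positivity
  have hb1 : b ≤ 2 / k := by
    rw [hb, div_le_div_iff₀ (by positivity) hj0]
    nlinarith
  have hb2 : b ≤ 1 / 2 := by
    refine hb1.trans ?_
    rw [div_le_div_iff₀ hj0 (by norm_num)]
    linarith
  have hpc : ∀ i ∈ block k, pc i ≤ b := by
    intro i hi
    have h3 := three_le_of_mem_block hk2 hi
    rw [block, mem_Ico] at hi
    unfold pc
    rw [if_pos h3, hb]
    apply one_div_le_one_div_of_le (by positivity)
    have h5 : (2 : ℝ) ^ k ≤ (i : ℝ) := by exact_mod_cast hi.1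
    have := Real.log_le_log (by positivity) h5
    rwa [Real.log_pow] at this
  obtain ⟨J1, hJ1⟩ : ∃ J1 : Finset (Finset ℕ), J1 =
    ((block k).image (fun n => sh n (range h))).filter (fun U => U ⊆ block k) := ⟨_, rfl⟩
  obtain ⟨J2, hJ2⟩ : ∃ J2 : Finset (Finset ℕ), J2 = {{2 ^ (k + 1) - 1}} := ⟨_, rfl⟩
  have hp1 : 1 ≤ 2 ^ k := Nat.one_le_two_pow
  have hp2 : 2 ^ (k + 1) = 2 * 2 ^ k := by ring
  have hJ1c : ∀ U ∈ J1, U ⊆ block k ∧ U.card = h := by
    intro U hU
    rw [hJ1, mem_filter, mem_image] at hU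
    obtain ⟨⟨n, _, rfl⟩, h2⟩ := hU
    exact ⟨h2, by rw [card_sh, card_range]⟩
  have hJ2c : ∀ U ∈ J2, U ⊆ block k ∧ U.card = 1 := by
    intro U hU
    rw [hJ2, mem_singleton] at hU
    subst hU
    refine ⟨?_, card_singleton _⟩
    rw [singleton_subset_iff, block, mem_Ico]
    omega
  have hx : ∀ U : Finset ℕ, U ⊆ block k → ∏ i ∈ U, pc i ≤ b ^ U.card := by
    intro U hU
    rw [← prod_const]
    exact prod_le_prod (fun i _ => pc_nonneg i) (fun i hi => hpc i (hU hi))
  have hx2 : ∀ U : Finset ℕ, 1 ≤ U.card → b ^ U.card ≤ 1 / 2 := by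
    intro U hU
    refine le_trans ?_ hb2
    calc b ^ U.card ≤ b ^ 1 := pow_le_pow_of_le_one hb0.le (by linarith) hU
      _ = b := pow_one b
  obtain ⟨P, hP0, hP1, hP2, hP3⟩ := cond_none (B := block k) (fun n hn => three_le_of_mem_block hk2 hn)
    (J1 ∪ J2) (fun U hU => by
      rcases mem_union.1 hU with hU | hU
      · exact (hJ1c U hU).1
      · exact (hJ2c U hU).1) (x := fun U => b ^ U.card) (fun U hU => by
      rcases mem_union.1 hU with hU | hU
      · exact hx U (hJ1c U hU).1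
      · exact hx U (hJ2c U hU).1) (fun U hU => by
      rcases mem_union.1 hU with hU | hU
      · exact hx2 U (by rw [(hJ1c U hU).2]; exact hh1)
      · exact hx2 U (by rw [(hJ2c U hU).2]))
  refine ⟨P, hP0, hP1, hP2.trans ?_, fun T hT hPT n hn => ?_⟩
  · have h1 : ∑ U ∈ J1 ∪ J2, 2 * b ^ U.card ≤ ∑ U ∈ J1, 2 * b ^ U.card + ∑ U ∈ J2, 2 * b ^ U.card := by
      rw [← sum_union_inter]
      have : 0 ≤ ∑ U ∈ J1 ∩ J2, 2 * b ^ U.card := sum_nonneg (fun U _ => by positivity)
      linarith
    refine h1.trans ?_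
    have e1 : (2 * (2 : ℝ) ^ h + 1) * 2 ^ k / (k : ℝ) ^ h =
        (2 : ℝ) ^ k * (2 * (2 / k) ^ h) + 2 ^ k / (k : ℝ) ^ h := by
      rw [div_pow]
      field_simp
    rw [e1]
    refine add_le_add ?_ ?_
    · have h2 : ∑ U ∈ J1, 2 * b ^ U.card = J1.card * (2 * b ^ h) := by
        rw [sum_congr rfl (fun U hU => by rw [(hJ1c U hU).2]), sum_const, nsmul_eq_mul]
      rw [h2]
      have h3 : (J1.card : ℝ) ≤ (2 : ℝ) ^ k := by
        have h4 : J1.card ≤ 2 ^ k := by
          rw [hJ1]
          refine (card_filter_le _ _).trans (card_image_le.trans (le_of_eq ?_))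
          rw [block, Nat.card_Ico]
          omega
        exact_mod_cast h4
      have h4 : 2 * b ^ h ≤ 2 * (2 / (k : ℝ)) ^ h := by
        have := pow_le_pow_left₀ hb0.le hb1 h
        linarith
      exact mul_le_mul h3 h4 (by positivity) (by positivity)
    · rw [hJ2, sum_singleton, card_singleton, pow_one]
      rw [div_lt_iff₀ (by positivity)] at hg
      rw [le_div_iff₀ (by positivity)]
      have h5 : 2 * b ≤ 4 := by linarith
      have h6 : (0 : ℝ) < (k : ℝ) ^ h := by positivity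
      nlinarith
  · have hPJ := hP3 T hT hPT
    have hn' := hn
    rw [block, mem_Ico] at hn'
    by_cases hs : sh n (range h) ⊆ block k
    · have h1 := hPJ (sh n (range h)) (mem_union_left _ (by
        rw [hJ1, mem_filter, mem_image]
        exact ⟨⟨n, hn, rfl⟩, hs⟩))
      rw [not_subset] at h1
      obtain ⟨m, hm, hmT⟩ := h1
      have h2 := hs hm
      unfold sh at hm
      rw [mem_image] at hm
      obtain ⟨a, ha, rfl⟩ := hm
      exact ⟨a, mem_range.1 ha, h2, hmT⟩
    · rw [not_subset] at hs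
      obtain ⟨m, hm, hmB⟩ := hs
      unfold sh at hm
      rw [mem_image] at hm
      obtain ⟨a, ha, rfl⟩ := hm
      rw [mem_range] at ha
      rw [block, mem_Ico] at hmB
      refine ⟨2 ^ (k + 1) - 1 - n, ?_, ?_, ?_⟩
      · omega
      · rw [block, mem_Ico]
        omega
      · have h1 := hPJ {2 ^ (k + 1) - 1} (mem_union_right _ (by
          rw [hJ2, mem_singleton]))
        rw [singleton_subset_iff] at h1
        have h2 : n + (2 ^ (k + 1) - 1 - n) = 2 ^ (k + 1) - 1 := by omega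
        rw [h2]
        exact h1

end Pool.Agent.Q47.TL
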